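import Pool.Agent.Lib.MP_4fe7bc_pr.T9

set_option autoImplicit false

open Filter Topology Pool.Agent.Lib.MP_4fe7bc_pr

namespace Pool.Agent.Results.MP_4fe7bc_pr.ThresholdExists

/-- For every proportion p of 3-clauses, random (2+p)-SAT has a sharp satisfiability threshold:
a constant a > 0 such that the formula is satisfiable with high probability at every total density
below a and unsatisfiable with high probability at every total density above a. The densities may
vanish, so that p = 0 is pure random 2-SAT and p = 1 is pure random 3-SAT. -/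
theorem result (p : ℝ) (hp0 : 0 ≤ p) (hp1 : p ≤ 1) :
    ∃ a : ℝ, 0 < a ∧ ∀ α2 α3 : ℝ, 0 ≤ α2 → 0 ≤ α3 → 0 < α2 + α3 → α3 / (α2 + α3) = p →
      (α2 + α3 < a → Tendsto (fun n : ℕ => satProb n ⌊α2 * n⌋₊ ⌊α3 * n⌋₊) atTop (𝓝 1)) ∧
      (a < α2 + α3 → Tendsto (fun n : ℕ => satProb n ⌊α2 * n⌋₊ ⌊α3 * n⌋₊) atTop (𝓝 0)) :=
  Thr.threshold_all hp0 hp1

end Pool.Agent.Results.MP_4fe7bc_pr.ThresholdExists
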