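import Pool.Agent.Lib.MP_4fe7bc_pr.Main

set_option autoImplicit false

open Filter Topology Pool.Agent.Lib.MP_4fe7bc_pr

namespace Pool.Agent.Results.MP_4fe7bc_pr.UnsatBelowTwoSat

/-- For every proportion p of 3-clauses above Gamma(2/3)^2 / (Gamma(1/3) + Gamma(2/3)^2), which is
about 0.40634, random (2+p)-SAT is unsatisfiable with high probability already from some total
density a strictly below 1 / (1 - p) on. -/
theorem result (p : ℝ)
    (hp : Real.Gamma (2 / 3) ^ 2 / (Real.Gamma (1 / 3) + Real.Gamma (2 / 3) ^ 2) < p)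
    (hp1 : p < 1) :
    ∃ a : ℝ, 0 < a ∧ a < 1 / (1 - p) ∧ ∀ α2 α3 : ℝ, 0 < α2 → 0 < α3 → α3 / (α2 + α3) = p →
      a < α2 + α3 →
      Tendsto (fun n : ℕ => satProb n ⌊α2 * n⌋₊ ⌊α3 * n⌋₊) atTop (𝓝 0) := by
  have hG1 : 0 < Real.Gamma (1 / 3) := Real.Gamma_pos_of_pos (by norm_num)
  have hG2 : 0 < Real.Gamma (2 / 3) ^ 2 := pow_pos (Real.Gamma_pos_of_pos (by norm_num)) 2
  have hq : 0 < 1 - p := by linarith
  have hp0 : 0 < p := lt_trans (by positivity) hp
  have h1 : Real.Gamma (2 / 3) ^ 2 / Real.Gamma (1 / 3) < p / (1 - p) := by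
    rw [div_lt_iff₀ (by positivity)] at hp
    rw [div_lt_div_iff₀ hG1 hq]
    linarith
  obtain ⟨lam, hl1, hl2⟩ := exists_between h1
  obtain ⟨x0, hx0, hx1, hmain⟩ := unsat_whp hl1
  have hr : 0 < p / (1 - p) := div_pos hp0 hq
  have hlt : max x0 (lam / (p / (1 - p))) < 1 := max_lt hx1 ((div_lt_one hr).2 hl2)
  refine ⟨max x0 (lam / (p / (1 - p))) / (1 - p), div_pos (lt_max_of_lt_left hx0) hq,
    by gcongr, fun α2 α3 h2 h3 hratio ha => ?_⟩
  have hs : 0 < α2 + α3 := by linarith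
  rw [div_eq_iff hs.ne'] at hratio
  have e2 : α2 = (α2 + α3) * (1 - p) := by linarith
  rw [div_lt_iff₀ hq, ← e2] at ha
  have e3 : α3 = α2 * (p / (1 - p)) := by
    field_simp
    linarith
  apply hmain
  · exact (le_max_left _ _).trans ha.le
  · have := (le_max_right _ _).trans ha.le
    rw [div_le_iff₀ hr] at this
    linarith

end Pool.Agent.Results.MP_4fe7bc_pr.UnsatBelowTwoSat
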